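import Pool.Agent.Work.MP_1ce82a_an.U.Defs

/-! The standard torus is an instance of the model. -/

open Set Filter Topology
open scoped ContDiff

namespace Pool.Agent.Work.MP_1ce82a_an.S

open Pool.Agent.Work.MP_1ce82a_an (E)

theorem torus_exists : ∃ (G : Type) (_ : Group G) (_ : MulAction G E), Surf G ∧ IsTorus G := by
  let A : MulAction (Multiplicative (ℤ × ℤ)) E :=
    { smul := fun g x => x + (((Multiplicative.toAdd g).1 : ℝ), ((Multiplicative.toAdd g).2 : ℝ))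
      one_smul := fun x => by
        show x + ((((0 : ℤ × ℤ).1 : ℤ) : ℝ), (((0 : ℤ × ℤ).2 : ℤ) : ℝ)) = x
        simp [Prod.ext_iff]
      mul_smul := fun a b x => by
        show x + ((((a.toAdd + b.toAdd).1 : ℤ) : ℝ), (((a.toAdd + b.toAdd).2 : ℤ) : ℝ)) =
          x + ((b.toAdd.1 : ℝ), (b.toAdd.2 : ℝ)) + ((a.toAdd.1 : ℝ), (a.toAdd.2 : ℝ))
        ext <;> simp <;> ring }
  have e : ∀ (g : Multiplicative (ℤ × ℤ)) (x : E),
      A.smul g x = x + ((g.toAdd.1 : ℝ), (g.toAdd.2 : ℝ)) := fun _ _ => rfl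
  refine ⟨Multiplicative (ℤ × ℤ), inferInstance, A, ⟨fun g => ?_, fun g x h => ?_, fun K hK => ?_,
    ⟨Icc 0 1 ×ˢ Icc 0 1, isCompact_Icc.prod isCompact_Icc, fun x => ?_⟩⟩,
    Equiv.refl E, Multiplicative.toAdd, contDiff_id, contDiff_id, Multiplicative.toAdd.bijective,
    fun g x => rfl⟩
  · exact contDiff_id.add contDiff_const
  · have h1 : x + ((g.toAdd.1 : ℝ), (g.toAdd.2 : ℝ)) = x := h
    rw [add_eq_left, Prod.ext_iff] at h1
    have h2 : (g.toAdd.1 : ℝ) = 0 := h1.1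
    have h3 : (g.toAdd.2 : ℝ) = 0 := h1.2
    exact Multiplicative.toAdd.injective
      (Prod.ext (Int.cast_eq_zero.1 h2) (Int.cast_eq_zero.1 h3))
  · obtain ⟨R, hR⟩ := hK.isBounded.exists_norm_le
    obtain ⟨N, hN⟩ := exists_int_gt (R + R)
    refine (((finite_Icc (-N) N).prod (finite_Icc (-N) N)).preimage
      Multiplicative.toAdd.injective.injOn).subset ?_
    rintro g ⟨x, h1, h2⟩
    have h3 : ‖(((g.toAdd.1 : ℝ), (g.toAdd.2 : ℝ)) : E)‖ ≤ N := by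
      have h4 := norm_sub_le (x + ((g.toAdd.1 : ℝ), (g.toAdd.2 : ℝ))) x
      rw [add_sub_cancel_left] at h4
      linarith [hR _ h1, hR (x + ((g.toAdd.1 : ℝ), (g.toAdd.2 : ℝ))) h2]
    rw [Prod.norm_def, max_le_iff, Real.norm_eq_abs, Real.norm_eq_abs, abs_le, abs_le] at h3
    dsimp only at h3
    exact ⟨⟨by exact_mod_cast h3.1.1, by exact_mod_cast h3.1.2⟩,
      ⟨by exact_mod_cast h3.2.1, by exact_mod_cast h3.2.2⟩⟩
  · refine ⟨Multiplicative.ofAdd (-⌊x.1⌋, -⌊x.2⌋), ?_⟩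
    show x + ((((-⌊x.1⌋ : ℤ)) : ℝ), (((-⌊x.2⌋ : ℤ)) : ℝ)) ∈ _
    have a1 := Int.floor_le x.1
    have a2 := Int.lt_floor_add_one x.1
    have a3 := Int.floor_le x.2
    have a4 := Int.lt_floor_add_one x.2
    refine ⟨⟨?_, ?_⟩, ?_, ?_⟩ <;> simp only [Prod.fst_add, Prod.snd_add, Int.cast_neg] <;> linarith

end Pool.Agent.Work.MP_1ce82a_an.S
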