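import Pool.Agent.Work.MP_1ce82a_an.U.Final

/-! The positive theorem with the torus as the only exception. -/

open Set Filter Topology MeasureTheory
open scoped ContDiff

namespace Pool.Agent.Work.MP_1ce82a_an.S

open Pool.Agent.Work.MP_1ce82a_an (E addPot)

variable {G : Type} [Group G] [MulAction G E]

theorem main4 (hS : Surf G) {L : E × E → ℝ} (hL : Tonelli G L)
    (h3 : Orient G ∨ ContDiff ℝ 3 L) :
    ∀ᶠ f in residual (Cinf G),
      Full {c : G → ℝ | c ∈ Uset (addPot L f.1) ∨ (IsTorus G ∧ c ∈ Tset (addPot L f.1))} := by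
  by_cases hT : IsTorus G
  · filter_upwards [main3 hS hL h3] with f hf
    exact hf.mono fun c hc => hc.imp id fun k => ⟨hT, k.2.2⟩
  · filter_upwards [(U.classification hS).1 hT L hL h3] with f hf
    exact hf.mono fun c hc => Or.inl hc

end Pool.Agent.Work.MP_1ce82a_an.S
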